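import Mathlib

/-!
# Portfolios for scheduling on unrelated machines may need polynomially many elements

For every `α ≥ 1` there are `κ > 0` and instances with arbitrarily many machines `d` for which every
`α`-approximate portfolio for the ordered norms has at least `d^κ` elements.

There are `L` blocks of machines.  Block `i` consists of `m_i = A^(10 i)` groups, and a group
consists of a primary machine and `A²` secondary machines.  There are `A²` jobs for a group; job `l`
takes time `λ_i / A²` on the primary machine, `λ_i / A` on the `l`-th secondary machine and the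
huge time `H` on all other machines, with `λ_i = A^(-5 i)`.  For `σ ∈ {0,1}^L` there is an ordered
norm for which in every block `i` the primary machines (`σ_i = 0`) or the secondary machines
(`σ_i = 1`) are better by a factor `A / 2`.  So a portfolio is a covering code of radius `L / 8`.
-/

set_option autoImplicit false

namespace Pool.Agent.Results.MP_61ce55_lc.PolynomialPortfolios

open Finset

/-- The load vector of the schedule `s` (which assigns job `j` to machine `s j`) for the processing
times `p i j` of job `j` on machine `i`. -/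
def load {d n : ℕ} (p : Fin d → Fin n → ℝ) (s : Fin n → Fin d) : Fin d → ℝ :=
  fun i => ∑ j, if s j = i then p i j else 0

/-- The set of the load vectors of all schedules. -/
def loads {d n : ℕ} (p : Fin d → Fin n → ℝ) : Set (Fin d → ℝ) := Set.range (load p)

/-- The coordinates of `x` in non-increasing order. -/
noncomputable def sortedDesc {d : ℕ} (x : Fin d → ℝ) : Fin d → ℝ :=
  x ∘ Tuple.sort (fun i => -x i)

/-- The ordered norm with weights `w` (on the nonnegative orthant). -/
noncomputable def ordNorm {d : ℕ} (w x : Fin d → ℝ) : ℝ := ∑ k, w k * sortedDesc x k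

/-- Weight vectors of ordered norms: `w_1 ≥ … ≥ w_d ≥ 0`, not all zero. -/
def IsWeight {d : ℕ} (w : Fin d → ℝ) : Prop := Antitone w ∧ (∀ k, 0 ≤ w k) ∧ w ≠ 0

/-- `X ⊆ D` is an `α`-approximate portfolio for the ordered norms. -/
def IsPortfolio {d : ℕ} (α : ℝ) (D : Set (Fin d → ℝ)) (X : Finset (Fin d → ℝ)) : Prop :=
  ↑X ⊆ D ∧ ∀ w : Fin d → ℝ, IsWeight w → ∃ x ∈ X, ∀ y ∈ D, ordNorm w x ≤ α * ordNorm w y

/-! ### Top-`k` sums -/

/-- The sum of the `k` largest coordinates. -/
noncomputable def top {d : ℕ} (k : ℕ) (x : Fin d → ℝ) : ℝ :=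
  ∑ k' ∈ univ.filter (fun k' : Fin d => (k' : ℕ) < k), sortedDesc x k'

lemma sortedDesc_antitone {d : ℕ} (x : Fin d → ℝ) : Antitone (sortedDesc x) := by
  intro i j hij
  have h := Tuple.monotone_sort (fun i => -x i) hij
  simp only [Function.comp] at h
  simp only [sortedDesc, Function.comp]
  linarith

lemma sum_le_top {d : ℕ} {x : Fin d → ℝ} (hx : ∀ i, 0 ≤ x i) (T : Finset (Fin d)) (k : ℕ)
    (hT : T.card ≤ k) : ∑ i ∈ T, x i ≤ top k x := by
  classical
  set g := sortedDesc x with hg
  have hanti : Antitone g := sortedDesc_antitone x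
  have hg0 : ∀ i, 0 ≤ g i := fun i => hx _
  set π := Tuple.sort (fun i => -x i) with hπ
  set T' : Finset (Fin d) := T.map π.symm.toEmbedding with hT'
  have hcard : T'.card = T.card := card_map _
  have h1 : ∑ i ∈ T, x i = ∑ i ∈ T', g i := by
    rw [hT', sum_map]
    apply sum_congr rfl
    intro i _
    simp [hg, sortedDesc, ← hπ]
  set K : Finset (Fin d) := univ.filter fun k' : Fin d => (k' : ℕ) < k with hK
  rw [h1]
  change ∑ i ∈ T', g i ≤ ∑ i ∈ K, g i
  by_cases hk : d ≤ k
  · have : K = univ := by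
      rw [hK, filter_true_of_mem]
      intro i _
      have := i.2
      omega
    rw [this]
    exact sum_le_sum_of_subset_of_nonneg (subset_univ _) fun i _ _ => hg0 i
  · push Not at hk
    have hKcard : K.card = k := by
      rw [hK, Fin.card_filter_val_lt]
      omega
    have h2 : ∑ i ∈ T' \ K, g i ≤ ∑ i ∈ K \ T', g i := by
      have h3 : (T' \ K).card ≤ (K \ T').card := by
        have h4 := card_sdiff_add_card_inter T' K
        have h5 := card_sdiff_add_card_inter K T'
        rw [inter_comm] at h5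
        omega
      calc ∑ i ∈ T' \ K, g i ≤ (T' \ K).card • g ⟨k, hk⟩ := by
            apply sum_le_card_nsmul
            intro i hi
            apply hanti
            rw [mem_sdiff, hK, mem_filter] at hi
            have h6 : ¬ (i : ℕ) < k := fun h => hi.2 ⟨mem_univ _, h⟩
            exact Fin.le_def.2 (by simpa using h6)
        _ ≤ (K \ T').card • g ⟨k, hk⟩ := by
            rw [nsmul_eq_mul, nsmul_eq_mul]
            exact mul_le_mul_of_nonneg_right (by exact_mod_cast h3) (hg0 _)
        _ ≤ ∑ i ∈ K \ T', g i := by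
            apply card_nsmul_le_sum
            intro i hi
            apply hanti
            rw [mem_sdiff, hK, mem_filter] at hi
            exact Fin.le_def.2 hi.1.2.le
    rw [← sum_inter_add_sum_sdiff T' K, ← sum_inter_add_sum_sdiff K T', inter_comm K T']
    linarith

lemma exists_top {d : ℕ} (x : Fin d → ℝ) (k : ℕ) :
    ∃ T : Finset (Fin d), T.card ≤ k ∧ top k x = ∑ i ∈ T, x i := by
  classical
  refine ⟨(univ.filter fun k' : Fin d => (k' : ℕ) < k).map
    (Tuple.sort (fun i => -x i)).toEmbedding, ?_, ?_⟩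
  · rw [card_map, Fin.card_filter_val_lt]
    exact min_le_right _ _
  · rw [sum_map]
    rfl

/-- The weights of a positive combination of top-`k` norms. -/
noncomputable def wt {d L : ℕ} (c : Fin L → ℝ) (k : Fin L → ℕ) : Fin d → ℝ :=
  fun k' => ∑ i, if (k' : ℕ) < k i then c i else 0

lemma ordNorm_wt {d L : ℕ} (c : Fin L → ℝ) (k : Fin L → ℕ) (x : Fin d → ℝ) :
    ordNorm (wt c k) x = ∑ i, c i * top (k i) x := by
  unfold ordNorm wt top
  simp_rw [sum_mul, mul_sum]
  rw [sum_comm]
  apply sum_congr rfl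
  intro i _
  rw [sum_filter]
  apply sum_congr rfl
  intro k' _
  split_ifs <;> ring

lemma isWeight_wt {d L : ℕ} (hd : 0 < d) {c : Fin L → ℝ} {k : Fin L → ℕ} (hc : ∀ i, 0 < c i)
    (hk : ∀ i, 1 ≤ k i) (hL : 0 < L) : IsWeight (wt (d := d) c k) := by
  refine ⟨?_, ?_, ?_⟩
  · intro a b hab
    apply sum_le_sum
    intro i _
    have h1 := Fin.le_def.1 hab
    have h2 := hc i
    split_ifs with h3 h4
    · exact le_rfl
    · omega
    · exact h2.le
    · exact le_rfl
  · intro k'
    apply sum_nonneg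
    intro i _
    split_ifs
    · exact (hc i).le
    · exact le_rfl
  · intro h
    have h1 := congrFun h ⟨0, hd⟩
    have h2 : 0 < wt (d := d) c k ⟨0, hd⟩ := by
      unfold wt
      have h3 : ∀ i ∈ (univ : Finset (Fin L)),
          (if ((⟨0, hd⟩ : Fin d) : ℕ) < k i then c i else 0) = c i := by
        intro i _
        rw [if_pos]
        have := hk i
        simp only
        omega
      rw [sum_congr rfl h3]
      exact sum_pos (fun i _ => hc i) ⟨⟨0, hL⟩, mem_univ _⟩
    rw [h1] at h2
    exact lt_irrefl _ h2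

/-! ### The instance -/

section instance_

variable (A L : ℕ)

/-- The machines: primary ones (`none`) and secondary ones. -/
abbrev Mach : Type := (i : Fin L) × (Fin (A ^ (10 * (i : ℕ))) × Option (Fin (A ^ 2)))

/-- The jobs. -/
abbrev Job : Type := (i : Fin L) × (Fin (A ^ (10 * (i : ℕ))) × Fin (A ^ 2))

variable {A L}

/-- The primary machine of a job. -/
def prim (j : Job A L) : Mach A L := ⟨j.1, (j.2.1, none)⟩

/-- The secondary machine of a job. -/
def sec (j : Job A L) : Mach A L := ⟨j.1, (j.2.1, some j.2.2)⟩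

lemma prim_ne_sec (j : Job A L) : prim j ≠ sec j := by
  intro h
  simp [prim, sec] at h

/-- `λ_i`. -/
noncomputable def lam (A : ℕ) (i : ℕ) : ℝ := 1 / (A : ℝ) ^ (5 * i)

/-- The processing times. -/
noncomputable def pM (H : ℝ) (μ : Mach A L) (j : Job A L) : ℝ :=
  if μ = prim j then lam A j.1 / (A : ℝ) ^ 2 else if μ = sec j then lam A j.1 / A else H

/-- The loads. -/
noncomputable def loadM (H : ℝ) (s : Job A L → Mach A L) (μ : Mach A L) : ℝ :=
  ∑ j, if s j = μ then pM H μ j else 0

lemma lam_nonneg (i : ℕ) : 0 ≤ lam A i := by unfold lam; positivity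

lemma lam_pos (hA : 0 < A) (i : ℕ) : 0 < lam A i := by
  unfold lam
  have : (0 : ℝ) < A := by exact_mod_cast hA
  positivity

lemma pM_nonneg {H : ℝ} (hH : 0 ≤ H) (μ : Mach A L) (j : Job A L) : 0 ≤ pM H μ j := by
  unfold pM
  have := lam_nonneg (A := A) j.1
  split_ifs
  · positivity
  · positivity
  · exact hH

lemma loadM_nonneg {H : ℝ} (hH : 0 ≤ H) (s : Job A L → Mach A L) (μ : Mach A L) :
    0 ≤ loadM H s μ := by
  apply sum_nonneg
  intro j _
  split_ifs
  · exact pM_nonneg hH _ _
  · exact le_rfl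

lemma sum_loadM (H : ℝ) (s : Job A L → Mach A L) (T : Finset (Mach A L)) :
    ∑ μ ∈ T, loadM H s μ = ∑ j, if s j ∈ T then pM H (s j) j else 0 := by
  unfold loadM
  rw [sum_comm]
  apply sum_congr rfl
  intro j _
  by_cases h : s j ∈ T
  · rw [if_pos h, sum_eq_single (s j)]
    · simp
    · intro μ _ hμ
      rw [if_neg hμ.symm]
    · intro h'
      exact absurd h h'
  · rw [if_neg h]
    apply sum_eq_zero
    intro μ hμ
    rw [if_neg]
    rintro rfl
    exact h hμ

/-- A schedule without jobs on wrong machines. -/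
def Proper (s : Job A L → Mach A L) : Prop := ∀ j, s j = prim j ∨ s j = sec j

/-- The number of the jobs of block `i` on primary machines. -/
noncomputable def na (s : Job A L → Mach A L) (i : Fin L) : ℕ :=
  (univ.filter fun v : Fin (A ^ (10 * (i : ℕ))) × Fin (A ^ 2) => s ⟨i, v⟩ = prim ⟨i, v⟩).card

/-- The number of the jobs of block `i` on secondary machines. -/
noncomputable def nb (s : Job A L → Mach A L) (i : Fin L) : ℕ :=
  (univ.filter fun v : Fin (A ^ (10 * (i : ℕ))) × Fin (A ^ 2) => s ⟨i, v⟩ = sec ⟨i, v⟩).card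

lemma na_add_nb {s : Job A L → Mach A L} (hs : Proper s) (i : Fin L) :
    na s i + nb s i = A ^ (10 * (i : ℕ)) * A ^ 2 := by
  unfold na nb
  rw [← card_union_of_disjoint]
  · rw [← filter_or, filter_true_of_mem]
    · simp
    · intro v _
      exact hs ⟨i, v⟩
  · rw [disjoint_filter]
    intro v _ h1 h2
    exact prim_ne_sec _ (h1.symm.trans h2)

/-- The primary machines of block `i`. -/
def Tprim (i : Fin L) : Finset (Mach A L) :=
  univ.image fun u : Fin (A ^ (10 * (i : ℕ))) => (⟨i, (u, none)⟩ : Mach A L)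

/-- The secondary machines of block `i`. -/
def Tsec (i : Fin L) : Finset (Mach A L) :=
  univ.image fun v : Fin (A ^ (10 * (i : ℕ))) × Fin (A ^ 2) =>
    (⟨i, (v.1, some v.2)⟩ : Mach A L)

lemma card_Tprim (i : Fin L) : (Tprim (A := A) i).card ≤ A ^ (10 * (i : ℕ)) := by
  refine card_image_le.trans ?_
  simp

lemma card_Tsec (i : Fin L) : (Tsec (A := A) i).card ≤ A ^ (10 * (i : ℕ)) * A ^ 2 := by
  refine card_image_le.trans ?_
  simp

lemma sum_block_le {H : ℝ} (hH : 0 ≤ H) (s : Job A L → Mach A L) (T : Finset (Mach A L))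
    (i : Fin L) (P : Fin (A ^ (10 * (i : ℕ))) × Fin (A ^ 2) → Prop) [DecidablePred P] (t : ℝ)
    (h : ∀ v, P v → s ⟨i, v⟩ ∈ T ∧ pM H (s ⟨i, v⟩) ⟨i, v⟩ = t) :
    (univ.filter P).card * t ≤ ∑ μ ∈ T, loadM H s μ := by
  rw [sum_loadM]
  have h1 : ∑ v ∈ univ.filter P,
      (if s ⟨i, v⟩ ∈ T then pM H (s ⟨i, v⟩) ⟨i, v⟩ else 0) = (univ.filter P).card * t := by
    rw [sum_congr rfl (g := fun _ => t), sum_const, nsmul_eq_mul]
    intro v hv
    rw [mem_filter] at hv
    rw [if_pos (h v hv.2).1, (h v hv.2).2]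
  rw [← h1]
  have h2 : ∑ v ∈ univ.filter P, (if s ⟨i, v⟩ ∈ T then pM H (s ⟨i, v⟩) ⟨i, v⟩ else 0) =
      ∑ j ∈ (univ.filter P).map (Function.Embedding.sigmaMk
        (β := fun i : Fin L => Fin (A ^ (10 * (i : ℕ))) × Fin (A ^ 2)) i),
        (if s j ∈ T then pM H (s j) j else 0) := by
    rw [sum_map]
    rfl
  rw [h2]
  apply sum_le_sum_of_subset_of_nonneg (subset_univ _)
  intro j _ _
  split_ifs
  · exact pM_nonneg hH _ _
  · exact le_rfl

lemma prim_sum {H : ℝ} (hH : 0 ≤ H) (s : Job A L → Mach A L) (i : Fin L) :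
    na s i * (lam A i / (A : ℝ) ^ 2) ≤ ∑ μ ∈ Tprim i, loadM H s μ := by
  apply sum_block_le hH
  intro v hv
  rw [hv]
  refine ⟨mem_image.2 ⟨v.1, mem_univ _, rfl⟩, ?_⟩
  unfold pM
  rw [if_pos rfl]

lemma sec_sum {H : ℝ} (hH : 0 ≤ H) (s : Job A L → Mach A L) (i : Fin L) :
    nb s i * (lam A i / (A : ℝ)) ≤ ∑ μ ∈ Tsec i, loadM H s μ := by
  apply sum_block_le hH
  intro v hv
  rw [hv]
  refine ⟨mem_image.2 ⟨v, mem_univ _, rfl⟩, ?_⟩
  unfold pM
  rw [if_neg (prim_ne_sec _).symm, if_pos rfl]

/-- The schedule which is good for `σ`. -/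
def sched (σ : Fin L → Bool) (j : Job A L) : Mach A L := if σ j.1 then sec j else prim j

lemma sched_fst (σ : Fin L → Bool) (j : Job A L) : (sched σ j).1 = j.1 := by
  unfold sched
  split_ifs <;> rfl

lemma pM_sched (H : ℝ) (σ : Fin L → Bool) (j : Job A L) :
    pM H (sched σ j) j = if σ j.1 then lam A j.1 / A else lam A j.1 / (A : ℝ) ^ 2 := by
  unfold sched pM
  by_cases h : σ j.1 = true
  · rw [if_pos h, if_pos h, if_neg (prim_ne_sec _).symm, if_pos rfl]
  · rw [if_neg h, if_neg h, if_pos rfl]

/-- The load of every machine of block `i` is at most `λ_i`, and at most `λ_i / A` if the jobs are on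
the secondary machines. -/
lemma loadM_sched_le (hA : 1 ≤ A) (H : ℝ) (σ : Fin L → Bool) (μ : Mach A L) :
    loadM H (sched σ) μ ≤ if σ μ.1 then lam A μ.1 / A else lam A μ.1 := by
  have hA' : (0 : ℝ) < A := by exact_mod_cast hA
  unfold loadM
  rw [← sum_filter]
  obtain ⟨i, u, o⟩ := μ
  simp only
  by_cases h : σ i = true
  · rw [if_pos h]
    -- at most one job
    have hsub : (univ.filter fun j : Job A L => sched σ j = ⟨i, (u, o)⟩).card ≤ 1 := by
      rw [card_le_one]
      intro a ha b hb
      rw [mem_filter] at ha hb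
      obtain ⟨ia, ua, la⟩ := a
      obtain ⟨ib, ub, lb⟩ := b
      have h1 := ha.2
      have h2 := hb.2
      have e1 : ia = i := (sched_fst σ _).symm.trans (congrArg Sigma.fst h1)
      have e2 : ib = i := (sched_fst σ _).symm.trans (congrArg Sigma.fst h2)
      subst e1
      subst e2
      unfold sched at h1 h2
      rw [if_pos h] at h1 h2
      simp only [sec, Sigma.mk.injEq, heq_eq_eq, Prod.mk.injEq, true_and] at h1 h2
      obtain ⟨rfl, rfl⟩ := h1
      obtain ⟨rfl, h3⟩ := h2
      rw [Option.some_inj] at h3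
      rw [h3]
    calc ∑ j ∈ univ.filter (fun j : Job A L => sched σ j = ⟨i, (u, o)⟩), pM H ⟨i, (u, o)⟩ j
        ≤ (univ.filter fun j : Job A L => sched σ j = ⟨i, (u, o)⟩).card • (lam A i / A) := by
          apply sum_le_card_nsmul
          intro j hj
          rw [mem_filter] at hj
          have e1 : j.1 = i := (sched_fst σ _).symm.trans (congrArg Sigma.fst hj.2)
          rw [← hj.2, pM_sched, e1, if_pos h]
      _ ≤ 1 • (lam A i / A) := by
          rw [nsmul_eq_mul, nsmul_eq_mul]
          have := lam_nonneg (A := A) i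
          apply mul_le_mul_of_nonneg_right _ (by positivity)
          exact_mod_cast hsub
      _ = lam A i / A := one_smul _ _
  · rw [if_neg h]
    have hsub : (univ.filter fun j : Job A L => sched σ j = ⟨i, (u, o)⟩).card ≤ A ^ 2 := by
      calc (univ.filter fun j : Job A L => sched σ j = ⟨i, (u, o)⟩).card
          ≤ (univ.image fun l : Fin (A ^ 2) => (⟨i, (u, l)⟩ : Job A L)).card := by
            apply card_le_card
            intro j hj
            rw [mem_filter] at hj
            obtain ⟨ij, uj, lj⟩ := j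
            have h1 := hj.2
            have e1 : ij = i := (sched_fst σ _).symm.trans (congrArg Sigma.fst h1)
            subst e1
            unfold sched at h1
            rw [if_neg h] at h1
            simp only [prim, Sigma.mk.injEq, heq_eq_eq, Prod.mk.injEq, true_and] at h1
            obtain ⟨rfl, -⟩ := h1
            exact mem_image.2 ⟨lj, mem_univ _, rfl⟩
        _ ≤ A ^ 2 := by
            refine card_image_le.trans ?_
            simp
    calc ∑ j ∈ univ.filter (fun j : Job A L => sched σ j = ⟨i, (u, o)⟩), pM H ⟨i, (u, o)⟩ j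
        ≤ (univ.filter fun j : Job A L => sched σ j = ⟨i, (u, o)⟩).card •
            (lam A i / (A : ℝ) ^ 2) := by
          apply sum_le_card_nsmul
          intro j hj
          rw [mem_filter] at hj
          have e1 : j.1 = i := (sched_fst σ _).symm.trans (congrArg Sigma.fst hj.2)
          rw [← hj.2, pM_sched, e1, if_neg h]
      _ ≤ (A : ℝ) ^ 2 * (lam A i / (A : ℝ) ^ 2) := by
          rw [nsmul_eq_mul]
          have := lam_nonneg (A := A) i
          apply mul_le_mul_of_nonneg_right _ (by positivity)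
          exact_mod_cast hsub
      _ = lam A i := by field_simp

/-- The total load of block `i`. -/
lemma sum_block_sched (hA : 1 ≤ A) {H : ℝ} (_hH : 0 ≤ H) (σ : Fin L → Bool) (i : Fin L)
    (T : Finset (Mach A L)) (hT : ∀ μ ∈ T, μ.1 = i) :
    ∑ μ ∈ T, loadM H (sched σ) μ ≤
      (A : ℝ) ^ (10 * (i : ℕ)) * lam A i * (if σ i then (A : ℝ) else 1) := by
  have hA' : (0 : ℝ) < A := by exact_mod_cast hA
  rw [sum_loadM]
  set t : ℝ := if σ i then lam A i / A else lam A i / (A : ℝ) ^ 2 with ht
  have ht0 : 0 ≤ t := by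
    have := lam_nonneg (A := A) i
    rw [ht]
    split_ifs <;> positivity
  have h1 : ∀ j ∈ (univ : Finset (Job A L)), (if sched σ j ∈ T then pM H (sched σ j) j else 0) ≤
      if j.1 = i then t else 0 := by
    intro j _
    by_cases h : sched σ j ∈ T
    · have e1 : j.1 = i := by
        have h2 := hT _ h
        unfold sched at h2
        split_ifs at h2 <;> exact h2
      rw [if_pos h, if_pos e1, pM_sched, e1]
    · rw [if_neg h]
      split_ifs
      · exact ht0
      · exact le_rfl
  refine (sum_le_sum h1).trans ?_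
  rw [← univ_sigma_univ, sum_sigma]
  simp only
  rw [sum_eq_single i]
  · simp only [if_true]
    rw [sum_const, nsmul_eq_mul, card_univ, Fintype.card_prod, Fintype.card_fin, Fintype.card_fin]
    push_cast
    rw [ht]
    split_ifs
    · field_simp
      exact le_rfl
    · field_simp
      exact le_rfl
  · intro i' _ hi'
    simp [hi']
  · simp

end instance_

/-! ### The norms -/

/-- The coefficient of the `i`-th top norm. -/
noncomputable def cf (A : ℕ) {L : ℕ} (σ : Fin L → Bool) (i : Fin L) : ℝ :=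
  (if σ i then (A : ℝ) else 1) / (A : ℝ) ^ (5 * (i : ℕ))

/-- The index of the `i`-th top norm. -/
def kk (A : ℕ) {L : ℕ} (σ : Fin L → Bool) (i : Fin L) : ℕ :=
  if σ i then A ^ (10 * (i : ℕ)) else A ^ (10 * (i : ℕ)) * A ^ 2

lemma geom_le (L i : ℕ) : ∑ j ∈ range L, (1 / 4 : ℝ) ^ ((i - j) + (j - i)) ≤ 2 := by
  have h1 : ∀ n : ℕ, ∑ j ∈ range n, (1 / 4 : ℝ) ^ j ≤ 4 / 3 := by
    intro n
    rw [geom_sum_eq (by norm_num)]
    have : (0 : ℝ) ≤ (1 / 4) ^ n := by positivity
    rw [div_le_iff_of_neg (by norm_num)]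
    linarith
  have h2 : ∑ j ∈ range (i + 1), (1 / 4 : ℝ) ^ ((i - j) + (j - i)) ≤ 4 / 3 := by
    rw [← sum_range_reflect]
    refine le_trans (sum_le_sum fun j hj => ?_) (h1 (i + 1))
    rw [mem_range] at hj
    apply le_of_eq
    congr 1
    omega
  have h3 : ∑ j ∈ range L, (1 / 4 : ℝ) ^ ((i - j) + (j - i)) ≤
      ∑ j ∈ range (i + 1 + L), (1 / 4 : ℝ) ^ ((i - j) + (j - i)) := by
    apply sum_le_sum_of_subset_of_nonneg
    · intro j hj
      rw [mem_range] at hj ⊢
      omega
    · intro j _ _
      positivity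
  rw [sum_range_add] at h3
  have h4 : ∑ x ∈ range L, (1 / 4 : ℝ) ^ ((i - (i + 1 + x)) + ((i + 1 + x) - i)) ≤
      1 / 4 * (4 / 3) := by
    calc ∑ x ∈ range L, (1 / 4 : ℝ) ^ ((i - (i + 1 + x)) + ((i + 1 + x) - i))
        = ∑ x ∈ range L, 1 / 4 * (1 / 4 : ℝ) ^ x := by
          apply sum_congr rfl
          intro x _
          rw [← pow_succ']
          congr 1
          omega
      _ = 1 / 4 * ∑ x ∈ range L, (1 / 4 : ℝ) ^ x := by rw [mul_sum]
      _ ≤ 1 / 4 * (4 / 3) := mul_le_mul_of_nonneg_left (h1 L) (by norm_num)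
  linarith

/-- The upper bound for the good schedule. -/
lemma sched_upper {A L : ℕ} (hA : 2 ≤ A) {H : ℝ} (hH : 0 ≤ H) (σ : Fin L → Bool) (i : Fin L)
    (T : Finset (Mach A L)) (hT : T.card ≤ kk A σ i) :
    cf A σ i * ∑ μ ∈ T, loadM H (sched σ) μ ≤ 2 := by
  have hA2 : (2 : ℝ) ≤ A := by exact_mod_cast hA
  have hA0 : (0 : ℝ) < A := by linarith
  have hA1 : (1 : ℝ) ≤ A := by linarith
  have hcf0 : 0 ≤ cf A σ i := by unfold cf; split_ifs <;> positivity
  have hcf : cf A σ i ≤ A / (A : ℝ) ^ (5 * (i : ℕ)) := by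
    unfold cf
    apply div_le_div_of_nonneg_right _ (by positivity)
    split_ifs
    · exact le_rfl
    · exact hA1
  have hkk : (kk A σ i : ℝ) ≤ (A : ℝ) ^ (10 * (i : ℕ)) * (A : ℝ) ^ 2 := by
    unfold kk
    split_ifs
    · push_cast
      exact le_mul_of_one_le_right (by positivity) (one_le_pow₀ hA1)
    · push_cast
      exact le_rfl
  have hTr : (T.card : ℝ) ≤ kk A σ i := by exact_mod_cast hT
  have hpow4 : ∀ e : ℕ, (4 : ℝ) ^ e ≤ (A : ℝ) ^ (2 * e) := by
    intro e
    rw [pow_mul]
    apply pow_le_pow_left₀ (by norm_num)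
    nlinarith
  -- decomposition into blocks
  have hdec : ∑ μ ∈ T, loadM H (sched σ) μ =
      ∑ i' : Fin L, ∑ μ ∈ T.filter (fun μ => μ.1 = i'), loadM H (sched σ) μ := by
    rw [sum_fiberwise]
  rw [hdec, mul_sum]
  have key : ∀ i' ∈ (univ : Finset (Fin L)),
      cf A σ i * ∑ μ ∈ T.filter (fun μ => μ.1 = i'), loadM H (sched σ) μ ≤
        (1 / 4 : ℝ) ^ (((i : ℕ) - i') + ((i' : ℕ) - i)) := by
    intro i' _
    have hblock := sum_block_sched (by omega : 1 ≤ A) hH σ i' (T.filter fun μ => μ.1 = i')
      (fun μ hμ => (mem_filter.1 hμ).2)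
    have hcardT : ((T.filter fun μ => μ.1 = i').card : ℝ) ≤ T.card := by
      exact_mod_cast card_filter_le _ _
    rcases lt_trichotomy (i' : ℕ) (i : ℕ) with hlt | heq | hgt
    · -- an earlier block
      obtain ⟨e, he⟩ := Nat.exists_eq_add_of_lt hlt
      have h1 : ∑ μ ∈ T.filter (fun μ => μ.1 = i'), loadM H (sched σ) μ ≤
          (A : ℝ) ^ (5 * (i' : ℕ)) * A := by
        refine hblock.trans ?_
        have h2 : (A : ℝ) ^ (10 * (i' : ℕ)) * lam A i' = (A : ℝ) ^ (5 * (i' : ℕ)) := by
          unfold lam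
          rw [show 10 * (i' : ℕ) = 5 * i' + 5 * i' by ring, pow_add]
          field_simp
        rw [h2]
        apply mul_le_mul_of_nonneg_left _ (by positivity)
        split_ifs
        · exact le_rfl
        · exact hA1
      have e1 : ((i : ℕ) - i') + ((i' : ℕ) - i) = e + 1 := by omega
      rw [e1]
      calc cf A σ i * ∑ μ ∈ T.filter (fun μ => μ.1 = i'), loadM H (sched σ) μ
          ≤ A / (A : ℝ) ^ (5 * (i : ℕ)) * ((A : ℝ) ^ (5 * (i' : ℕ)) * A) := by
            apply mul_le_mul hcf h1 _ (by positivity)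
            exact sum_nonneg fun μ _ => loadM_nonneg hH _ _
        _ = (A : ℝ) ^ 2 / (A : ℝ) ^ (5 * (e + 1)) := by
            rw [he, show 5 * ((i' : ℕ) + e + 1) = 5 * i' + 5 * (e + 1) by ring,
              pow_add (A : ℝ) (5 * (i' : ℕ))]
            field_simp
        _ ≤ (1 / 4 : ℝ) ^ (e + 1) := by
            rw [div_le_iff₀ (by positivity), one_div, inv_pow, inv_mul_eq_div,
              le_div_iff₀ (by positivity)]
            calc (A : ℝ) ^ 2 * 4 ^ (e + 1) ≤ (A : ℝ) ^ 2 * (A : ℝ) ^ (2 * (e + 1)) :=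
                  mul_le_mul_of_nonneg_left (hpow4 _) (by positivity)
              _ = (A : ℝ) ^ (2 + 2 * (e + 1)) := by rw [pow_add]
              _ ≤ (A : ℝ) ^ (5 * (e + 1)) := pow_le_pow_right₀ hA1 (by omega)
    · -- the same block
      have hii : i' = i := Fin.ext heq
      subst hii
      rw [Nat.sub_self, Nat.add_zero, pow_zero]
      by_cases hσ : σ i' = true
      · have h1 : ∑ μ ∈ T.filter (fun μ => μ.1 = i'), loadM H (sched σ) μ ≤
            (A : ℝ) ^ (10 * (i' : ℕ)) * (lam A i' / A) := by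
          calc ∑ μ ∈ T.filter (fun μ => μ.1 = i'), loadM H (sched σ) μ
              ≤ (T.filter fun μ => μ.1 = i').card • (lam A i' / A) := by
                apply sum_le_card_nsmul
                intro μ hμ
                have h2 := loadM_sched_le (by omega : 1 ≤ A) H σ μ
                rw [mem_filter] at hμ
                rw [hμ.2, if_pos hσ] at h2
                exact h2
            _ ≤ (A : ℝ) ^ (10 * (i' : ℕ)) * (lam A i' / A) := by
                rw [nsmul_eq_mul]
                have := lam_nonneg (A := A) i'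
                apply mul_le_mul_of_nonneg_right _ (by positivity)
                refine hcardT.trans (hTr.trans ?_)
                unfold kk
                rw [if_pos hσ]
                push_cast
                exact le_rfl
        calc cf A σ i' * ∑ μ ∈ T.filter (fun μ => μ.1 = i'), loadM H (sched σ) μ
            ≤ cf A σ i' * ((A : ℝ) ^ (10 * (i' : ℕ)) * (lam A i' / A)) :=
              mul_le_mul_of_nonneg_left h1 hcf0
          _ = 1 := by
              unfold cf lam
              rw [if_pos hσ, show 10 * (i' : ℕ) = 5 * i' + 5 * i' by ring, pow_add]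
              field_simp
          _ ≤ 1 := le_rfl
      · rw [if_neg hσ] at hblock
        calc cf A σ i' * ∑ μ ∈ T.filter (fun μ => μ.1 = i'), loadM H (sched σ) μ
            ≤ cf A σ i' * ((A : ℝ) ^ (10 * (i' : ℕ)) * lam A i' * 1) :=
              mul_le_mul_of_nonneg_left hblock hcf0
          _ = 1 := by
              unfold cf lam
              rw [if_neg hσ, show 10 * (i' : ℕ) = 5 * i' + 5 * i' by ring, pow_add]
              field_simp
          _ ≤ 1 := le_rfl
    · -- a later block
      obtain ⟨e, he⟩ := Nat.exists_eq_add_of_lt hgt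
      have h1 : ∑ μ ∈ T.filter (fun μ => μ.1 = i'), loadM H (sched σ) μ ≤
          (A : ℝ) ^ (10 * (i : ℕ)) * (A : ℝ) ^ 2 * lam A i' := by
        calc ∑ μ ∈ T.filter (fun μ => μ.1 = i'), loadM H (sched σ) μ
            ≤ (T.filter fun μ => μ.1 = i').card • lam A i' := by
              apply sum_le_card_nsmul
              intro μ hμ
              have h2 := loadM_sched_le (by omega : 1 ≤ A) H σ μ
              rw [mem_filter] at hμ
              rw [hμ.2] at h2
              refine h2.trans ?_
              split_ifs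
              · exact div_le_self (lam_nonneg _) hA1
              · exact le_rfl
          _ ≤ (A : ℝ) ^ (10 * (i : ℕ)) * (A : ℝ) ^ 2 * lam A i' := by
              rw [nsmul_eq_mul]
              apply mul_le_mul_of_nonneg_right _ (lam_nonneg _)
              exact hcardT.trans (hTr.trans hkk)
      have e1 : ((i : ℕ) - i') + ((i' : ℕ) - i) = e + 1 := by omega
      rw [e1]
      calc cf A σ i * ∑ μ ∈ T.filter (fun μ => μ.1 = i'), loadM H (sched σ) μ
          ≤ A / (A : ℝ) ^ (5 * (i : ℕ)) *
              ((A : ℝ) ^ (10 * (i : ℕ)) * (A : ℝ) ^ 2 * lam A i') := by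
            apply mul_le_mul hcf h1 _ (by positivity)
            exact sum_nonneg fun μ _ => loadM_nonneg hH _ _
        _ = (A : ℝ) ^ 3 / (A : ℝ) ^ (5 * (e + 1)) := by
            unfold lam
            rw [he, show 5 * ((i : ℕ) + e + 1) = 5 * i + 5 * (e + 1) by ring,
              pow_add (A : ℝ) (5 * (i : ℕ)),
              show 10 * (i : ℕ) = 5 * i + 5 * i by ring, pow_add (A : ℝ) (5 * (i : ℕ))]
            field_simp
        _ ≤ (1 / 4 : ℝ) ^ (e + 1) := by
            rw [div_le_iff₀ (by positivity), one_div, inv_pow, inv_mul_eq_div,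
              le_div_iff₀ (by positivity)]
            calc (A : ℝ) ^ 3 * 4 ^ (e + 1) ≤ (A : ℝ) ^ 3 * (A : ℝ) ^ (2 * (e + 1)) :=
                  mul_le_mul_of_nonneg_left (hpow4 _) (by positivity)
              _ = (A : ℝ) ^ (3 + 2 * (e + 1)) := by rw [pow_add]
              _ ≤ (A : ℝ) ^ (5 * (e + 1)) := pow_le_pow_right₀ hA1 (by omega)
  refine (sum_le_sum key).trans ?_
  have h5 := geom_le L i
  rw [← Fin.sum_univ_eq_sum_range (fun j => (1 / 4 : ℝ) ^ (((i : ℕ) - j) + (j - (i : ℕ)))) L] at h5
  exact h5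

/-- The lower bound for schedules that differ from the good one in block `i`. -/
lemma mismatch_lower {A L : ℕ} (hA : 2 ≤ A) {H : ℝ} (hH : 0 ≤ H) (σ : Fin L → Bool)
    {s : Job A L → Mach A L} (hs : Proper s) (i : Fin L) (h : σ i ≠ decide (na s i < nb s i)) :
    ∃ T : Finset (Mach A L), T.card ≤ kk A σ i ∧
      (A : ℝ) / 2 ≤ cf A σ i * ∑ μ ∈ T, loadM H s μ := by
  have hA2 : (2 : ℝ) ≤ A := by exact_mod_cast hA
  have hA0 : (0 : ℝ) < A := by linarith
  have hsum := na_add_nb hs i
  have hsumR : (na s i : ℝ) + nb s i = (A : ℝ) ^ (10 * (i : ℕ)) * (A : ℝ) ^ 2 := by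
    exact_mod_cast hsum
  have hcf0 : 0 ≤ cf A σ i := by unfold cf; split_ifs <;> positivity
  have hlam := lam_nonneg (A := A) (i : ℕ)
  by_cases hσ : σ i = true
  · -- many jobs on the primary machines
    have h1 : nb s i ≤ na s i := by
      by_contra hcon
      push Not at hcon
      exact h (by rw [hσ]; exact (decide_eq_true hcon).symm)
    have h1R : (nb s i : ℝ) ≤ na s i := by exact_mod_cast h1
    refine ⟨Tprim i, ?_, ?_⟩
    · unfold kk
      rw [if_pos hσ]
      exact card_Tprim i
    · calc (A : ℝ) / 2 = cf A σ i *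
            ((A : ℝ) ^ (10 * (i : ℕ)) * (A : ℝ) ^ 2 / 2 * (lam A i / (A : ℝ) ^ 2)) := by
            unfold cf lam
            rw [if_pos hσ, show 10 * (i : ℕ) = 5 * i + 5 * i by ring, pow_add]
            field_simp
        _ ≤ cf A σ i * (na s i * (lam A i / (A : ℝ) ^ 2)) := by
            apply mul_le_mul_of_nonneg_left _ hcf0
            apply mul_le_mul_of_nonneg_right _ (by positivity)
            linarith
        _ ≤ _ := mul_le_mul_of_nonneg_left (prim_sum hH s i) hcf0
  · have h1 : na s i ≤ nb s i := by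
      by_contra hcon
      push Not at hcon
      apply h
      rw [Bool.not_eq_true] at hσ
      rw [hσ]
      exact (decide_eq_false (by omega)).symm
    have h1R : (na s i : ℝ) ≤ nb s i := by exact_mod_cast h1
    refine ⟨Tsec i, ?_, ?_⟩
    · unfold kk
      rw [if_neg hσ]
      exact card_Tsec i
    · calc (A : ℝ) / 2 = cf A σ i *
            ((A : ℝ) ^ (10 * (i : ℕ)) * (A : ℝ) ^ 2 / 2 * (lam A i / (A : ℝ))) := by
            unfold cf lam
            rw [if_neg hσ, show 10 * (i : ℕ) = 5 * i + 5 * i by ring, pow_add]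
            field_simp
        _ ≤ cf A σ i * (nb s i * (lam A i / (A : ℝ))) := by
            apply mul_le_mul_of_nonneg_left _ hcf0
            apply mul_le_mul_of_nonneg_right _ (by positivity)
            linarith
        _ ≤ _ := mul_le_mul_of_nonneg_left (sec_sum hH s i) hcf0

/-! ### Covering codes -/

/-- The size of a Hamming ball of radius `t` in `{0,1}^(8t)`. -/
lemma ball_card {t : ℕ} (τ : Fin (8 * t) → Bool) :
    ((univ.filter fun σ : Fin (8 * t) → Bool =>
      (univ.filter fun i => σ i ≠ τ i).card ≤ t).card : ℝ) * 12 ^ t ≤ 2 ^ (8 * t) := by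
  classical
  set Bl := univ.filter fun σ : Fin (8 * t) → Bool =>
      (univ.filter fun i => σ i ≠ τ i).card ≤ t with hBl
  have h1 : ∑ σ : Fin (8 * t) → Bool, ∏ i, (if σ i ≠ τ i then (1 / 7 : ℝ) else 1) =
      (8 / 7 : ℝ) ^ (8 * t) := by
    have h2 := (Finset.prod_univ_sum (fun _ : Fin (8 * t) => (univ : Finset Bool))
      (fun i b => if b ≠ τ i then (1 / 7 : ℝ) else 1)).symm
    rw [Fintype.piFinset_univ] at h2
    rw [h2]
    have h3 : ∀ i ∈ (univ : Finset (Fin (8 * t))),
        ∑ b : Bool, (if b ≠ τ i then (1 / 7 : ℝ) else 1) = 8 / 7 := by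
      intro i _
      rw [Fintype.sum_bool]
      cases τ i <;> norm_num
    rw [prod_congr rfl h3, prod_const, card_univ, Fintype.card_fin]
  have h4 : ∀ σ : Fin (8 * t) → Bool, ∏ i, (if σ i ≠ τ i then (1 / 7 : ℝ) else 1) =
      (1 / 7 : ℝ) ^ (univ.filter fun i => σ i ≠ τ i).card := by
    intro σ
    rw [prod_ite, prod_const, prod_const_one, mul_one]
  have h5 : (Bl.card : ℝ) * (1 / 7) ^ t ≤ (8 / 7 : ℝ) ^ (8 * t) := by
    rw [← h1]
    calc (Bl.card : ℝ) * (1 / 7) ^ t = ∑ _σ ∈ Bl, (1 / 7 : ℝ) ^ t := by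
          rw [sum_const, nsmul_eq_mul]
      _ ≤ ∑ σ ∈ Bl, ∏ i, (if σ i ≠ τ i then (1 / 7 : ℝ) else 1) := by
          apply sum_le_sum
          intro σ hσ
          rw [h4]
          rw [hBl, mem_filter] at hσ
          exact pow_le_pow_of_le_one (by norm_num) (by norm_num) hσ.2
      _ ≤ _ := by
          apply sum_le_sum_of_subset_of_nonneg (subset_univ _)
          intro σ _ _
          apply prod_nonneg
          intro i _
          split_ifs <;> norm_num
  have h6 : (0 : ℝ) < (7 * 12) ^ t := by positivity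
  calc (Bl.card : ℝ) * 12 ^ t = (Bl.card : ℝ) * (1 / 7) ^ t * (7 * 12) ^ t := by
        rw [mul_pow, one_div, inv_pow]
        field_simp
    _ ≤ (8 / 7 : ℝ) ^ (8 * t) * (7 * 12) ^ t := mul_le_mul_of_nonneg_right h5 h6.le
    _ = ((8 / 7 : ℝ) ^ 8 * (7 * 12)) ^ t := by rw [mul_pow ((8 / 7 : ℝ) ^ 8), ← pow_mul]
    _ ≤ (2 ^ 8) ^ t := by
        apply pow_le_pow_left₀ (by positivity)
        norm_num
    _ = 2 ^ (8 * t) := by rw [pow_mul]

/-- Transport of the loads. -/
lemma load_transport {A L d n : ℕ} (H : ℝ) (eM : Mach A L ≃ Fin d) (eJ : Job A L ≃ Fin n)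
    (s : Fin n → Fin d) (μ : Mach A L) :
    load (fun i j => pM H (eM.symm i) (eJ.symm j)) s (eM μ) =
      loadM H (fun j => eM.symm (s (eJ j))) μ := by
  unfold load loadM
  rw [← eJ.sum_comp]
  apply sum_congr rfl
  intro j _
  simp only [Equiv.symm_apply_apply]
  by_cases h : s (eJ j) = eM μ
  · rw [if_pos h, if_pos (by rw [h, Equiv.symm_apply_apply])]
  · rw [if_neg h, if_neg]
    intro h2
    apply h
    rw [← h2, Equiv.apply_symm_apply]

/-- For every `α ≥ 1` there is `κ > 0` such that for arbitrarily large numbers `d` of machines there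
is an instance in which every `α`-approximate portfolio for the ordered norms has at least `d^κ`
elements. -/
theorem result (α : ℝ) (hα : 1 ≤ α) :
    ∃ κ : ℝ, 0 < κ ∧ ∀ d₀ : ℕ, ∃ d ≥ d₀, ∃ (n : ℕ) (p : Fin d → Fin n → ℝ),
      1 ≤ n ∧ (∀ i j, 0 ≤ p i j) ∧
        ∀ X : Finset (Fin d → ℝ), IsPortfolio α (loads p) X → (d : ℝ) ^ κ ≤ X.card := by
  classical
  obtain ⟨A, hA⟩ := exists_nat_ge (32 * α)
  have hA32 : (32 : ℝ) ≤ A := by linarith
  have hA2' : (2 : ℝ) ≤ A := by linarith
  have hA2 : 2 ≤ A := by exact_mod_cast hA2'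
  have hA0 : (0 : ℝ) < A := by linarith
  have hA1 : (1 : ℝ) < A := by linarith
  have hlogA : 0 < Real.log A := Real.log_pos hA1
  have hlog12 : 0 < Real.log 12 := Real.log_pos (by norm_num)
  refine ⟨Real.log 12 / (112 * Real.log A), by positivity, fun d₀ => ?_⟩
  set t : ℕ := d₀ + 1 with ht
  set L : ℕ := 8 * t with hL
  set d : ℕ := Fintype.card (Mach A L) with hd
  set n : ℕ := Fintype.card (Job A L) with hn
  set H : ℝ := 2 * α * L + 1 with hH
  have hH0 : 0 ≤ H := by positivity
  let eM : Mach A L ≃ Fin d := Fintype.equivFin _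
  let eJ : Job A L ≃ Fin n := Fintype.equivFin _
  -- the number of machines
  have hdcard : d = ∑ i : Fin L, A ^ (10 * (i : ℕ)) * (A ^ 2 + 1) := by
    rw [hd, Fintype.card_sigma]
    apply sum_congr rfl
    intro i _
    simp
  have hdlow : L ≤ d := by
    rw [hdcard]
    calc L = ∑ _i : Fin L, 1 := by simp
      _ ≤ _ := by
          apply sum_le_sum
          intro i _
          exact Nat.one_le_iff_ne_zero.2 (by positivity)
  have hdup : (d : ℝ) ≤ (A : ℝ) ^ (112 * t) := by
    have h1 : d ≤ L * (A ^ (10 * L) * A ^ 3) := by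
      rw [hdcard]
      calc ∑ i : Fin L, A ^ (10 * (i : ℕ)) * (A ^ 2 + 1)
          ≤ ∑ _i : Fin L, A ^ (10 * L) * A ^ 3 := by
            apply sum_le_sum
            intro i _
            apply Nat.mul_le_mul
            · exact Nat.pow_le_pow_right (by omega) (by have := i.2; omega)
            · have h2 : 1 ≤ A ^ 2 := Nat.one_le_pow _ _ (by omega)
              calc A ^ 2 + 1 ≤ A ^ 2 + A ^ 2 := by omega
                _ = A ^ 2 * 2 := by ring
                _ ≤ A ^ 2 * A := Nat.mul_le_mul_left _ hA2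
                _ = A ^ 3 := by ring
        _ = L * (A ^ (10 * L) * A ^ 3) := by simp
    have h3 : L ≤ A ^ L := (Nat.lt_pow_self (by omega : 1 < A)).le
    have h4 : d ≤ A ^ (112 * t) := by
      calc d ≤ L * (A ^ (10 * L) * A ^ 3) := h1
        _ ≤ A ^ L * (A ^ (10 * L) * A ^ 3) := Nat.mul_le_mul_right _ h3
        _ = A ^ (11 * L + 3) := by
            rw [← pow_add, ← pow_add]
            congr 1
            ring
        _ ≤ A ^ (112 * t) := Nat.pow_le_pow_right (by omega) (by omega)
    exact_mod_cast h4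
  have hdpos : 0 < d := by omega
  have hnpos : 1 ≤ n := by
    rw [hn]
    apply Nat.one_le_iff_ne_zero.2
    have h0 : 0 < L := by omega
    have hx : Nonempty (Job A L) :=
      ⟨⟨⟨0, h0⟩, (⟨0, by positivity⟩, ⟨0, by positivity⟩)⟩⟩
    exact Fintype.card_ne_zero
  refine ⟨d, by omega, n, fun i j => pM H (eM.symm i) (eJ.symm j), hnpos,
    fun i j => pM_nonneg hH0 _ _, ?_⟩
  rintro X ⟨hXD, hX⟩
  -- schedules of the elements of `X`
  have hex : ∀ x : X, ∃ s : Fin n → Fin d,
      load (fun i j => pM H (eM.symm i) (eJ.symm j)) s = x.1 := fun x => hXD x.2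
  choose S hS using hex
  let S' : X → Job A L → Mach A L := fun x j => eM.symm (S x (eJ j))
  have hSx : ∀ (x : X) (μ : Mach A L), x.1 (eM μ) = loadM H (S' x) μ := by
    intro x μ
    rw [← hS x]
    exact load_transport H eM eJ (S x) μ
  let τ : X → Fin L → Bool := fun x i => decide (na (S' x) i < nb (S' x) i)
  have hcfpos : ∀ (σ : Fin L → Bool) (i : Fin L), 0 < cf A σ i := by
    intro σ i
    unfold cf
    split_ifs <;> positivity
  have hkkpos : ∀ (σ : Fin L → Bool) (i : Fin L), 1 ≤ kk A σ i := by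
    intro σ i
    unfold kk
    split_ifs
    · exact Nat.one_le_pow _ _ (by omega)
    · exact Nat.one_le_iff_ne_zero.2 (by positivity)
  have hsumT : ∀ (x : Fin d → ℝ) (T : Finset (Fin d)),
      ∑ i ∈ T, x i = ∑ μ ∈ T.map eM.symm.toEmbedding, x (eM μ) := by
    intro x T
    rw [sum_map]
    simp
  -- every `σ` is covered
  have hcover : ∀ σ : Fin L → Bool, ∃ x : X, (univ.filter fun i => σ i ≠ τ x i).card ≤ t := by
    intro σ
    obtain ⟨x, hxX, hx⟩ := hX (wt (cf A σ) (kk A σ))
      (isWeight_wt hdpos (hcfpos σ) (hkkpos σ) (by omega))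
    refine ⟨⟨x, hxX⟩, ?_⟩
    -- the good schedule
    have hgood := hx (load (fun i j => pM H (eM.symm i) (eJ.symm j))
      (fun j => eM (sched σ (eJ.symm j)))) ⟨_, rfl⟩
    set y := load (fun i j => pM H (eM.symm i) (eJ.symm j))
      (fun j => eM (sched σ (eJ.symm j))) with hy
    have hyM : ∀ μ, y (eM μ) = loadM H (sched σ) μ := by
      intro μ
      rw [hy, load_transport]
      simp
    have hub : ordNorm (wt (cf A σ) (kk A σ)) y ≤ 2 * L := by
      rw [ordNorm_wt]
      calc ∑ i, cf A σ i * top (kk A σ i) y ≤ ∑ _i : Fin L, (2 : ℝ) := by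
            apply sum_le_sum
            intro i _
            obtain ⟨T, hT1, hT2⟩ := exists_top y (kk A σ i)
            rw [hT2, hsumT]
            simp_rw [hyM]
            apply sched_upper hA2 hH0
            rw [card_map]
            exact hT1
        _ = 2 * L := by simp [mul_comm]
    have hle : ordNorm (wt (cf A σ) (kk A σ)) x ≤ 2 * α * L := by
      calc ordNorm (wt (cf A σ) (kk A σ)) x ≤ α * ordNorm (wt (cf A σ) (kk A σ)) y := hgood
        _ ≤ α * (2 * L) := mul_le_mul_of_nonneg_left hub (by linarith)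
        _ = 2 * α * L := by ring
    rw [ordNorm_wt] at hle
    have hx0 : ∀ i, 0 ≤ x i := by
      intro i
      have h0 : x (eM (eM.symm i)) = _ := hSx ⟨x, hxX⟩ (eM.symm i)
      rw [Equiv.apply_symm_apply] at h0
      rw [h0]
      exact loadM_nonneg hH0 _ _
    have htop0 : ∀ i : Fin L, 0 ≤ top (kk A σ i) x := by
      intro i
      have := sum_le_top hx0 ∅ (kk A σ i) (by simp)
      simpa using this
    have hterm : ∀ (i : Fin L) (T : Finset (Mach A L)), T.card ≤ kk A σ i →
        cf A σ i * ∑ μ ∈ T, loadM H (S' ⟨x, hxX⟩) μ ≤ cf A σ i * top (kk A σ i) x := by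
      intro i T hT
      apply mul_le_mul_of_nonneg_left _ (hcfpos σ i).le
      have h1 := sum_le_top hx0 (T.map eM.toEmbedding) (kk A σ i) (by rw [card_map]; exact hT)
      rw [sum_map] at h1
      refine le_trans (le_of_eq ?_) h1
      apply sum_congr rfl
      intro μ _
      exact (hSx ⟨x, hxX⟩ μ).symm
    -- no job on a wrong machine
    have hproper : Proper (S' ⟨x, hxX⟩) := by
      intro j
      by_contra hcon
      push Not at hcon
      have h1 : H ≤ loadM H (S' ⟨x, hxX⟩) (S' ⟨x, hxX⟩ j) := by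
        unfold loadM
        have h2 : pM H (S' ⟨x, hxX⟩ j) j = H := by
          unfold pM
          rw [if_neg hcon.1, if_neg hcon.2]
        calc H = if S' ⟨x, hxX⟩ j = S' ⟨x, hxX⟩ j then pM H (S' ⟨x, hxX⟩ j) j else 0 := by
              rw [if_pos rfl, h2]
          _ ≤ _ := single_le_sum (f := fun j' => if S' ⟨x, hxX⟩ j' = S' ⟨x, hxX⟩ j then
                pM H (S' ⟨x, hxX⟩ j) j' else 0) (fun j' _ => by
                  split_ifs
                  · exact pM_nonneg hH0 _ _
                  · exact le_rfl) (mem_univ j)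
      have h0 : 0 < L := by omega
      have h3 := hterm ⟨0, h0⟩ {S' ⟨x, hxX⟩ j} (by simpa using hkkpos σ ⟨0, h0⟩)
      rw [sum_singleton] at h3
      have h4 : 1 ≤ cf A σ ⟨0, h0⟩ := by
        unfold cf
        simp only [mul_zero, pow_zero, div_one]
        split_ifs
        · exact hA1.le
        · exact le_rfl
      have h5 : cf A σ ⟨0, h0⟩ * top (kk A σ ⟨0, h0⟩) x ≤ ∑ i, cf A σ i * top (kk A σ i) x :=
        single_le_sum (f := fun i => cf A σ i * top (kk A σ i) x)
          (fun i _ => mul_nonneg (hcfpos σ i).le (htop0 i)) (mem_univ _)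
      have h6 : H ≤ cf A σ ⟨0, h0⟩ * loadM H (S' ⟨x, hxX⟩) (S' ⟨x, hxX⟩ j) := by
        nlinarith
      linarith
    -- the mismatches
    set Mi := univ.filter fun i => σ i ≠ τ ⟨x, hxX⟩ i with hMi
    have h7 : (Mi.card : ℝ) * (A / 2) ≤ 2 * α * L := by
      calc (Mi.card : ℝ) * (A / 2) = ∑ _i ∈ Mi, (A : ℝ) / 2 := by rw [sum_const, nsmul_eq_mul]
        _ ≤ ∑ i ∈ Mi, cf A σ i * top (kk A σ i) x := by
            apply sum_le_sum
            intro i hi
            rw [hMi, mem_filter] at hi
            obtain ⟨T, hT1, hT2⟩ := mismatch_lower hA2 hH0 σ hproper i hi.2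
            exact hT2.trans (hterm i T hT1)
        _ ≤ ∑ i, cf A σ i * top (kk A σ i) x :=
            sum_le_sum_of_subset_of_nonneg (subset_univ _)
              fun i _ _ => mul_nonneg (hcfpos σ i).le (htop0 i)
        _ ≤ 2 * α * L := hle
    have h8 : (Mi.card : ℝ) ≤ t := by
      have hLt : (L : ℝ) = 8 * t := by rw [hL]; push_cast; ring
      rw [hLt] at h7
      have h9 : (0 : ℝ) < t := by rw [ht]; positivity
      by_contra hcon
      push Not at hcon
      have h10 : (t : ℝ) * (A / 2) < Mi.card * (A / 2) :=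
        mul_lt_mul_of_pos_right hcon (by linarith)
      nlinarith
    exact_mod_cast h8
  -- counting
  have hcount : (2 : ℝ) ^ (8 * t) ≤ X.card * (2 ^ (8 * t) / 12 ^ t) := by
    have h1 : (univ : Finset (Fin L → Bool)) ⊆ (univ : Finset X).biUnion fun x =>
        univ.filter fun σ : Fin L → Bool => (univ.filter fun i => σ i ≠ τ x i).card ≤ t := by
      intro σ _
      obtain ⟨x, hx⟩ := hcover σ
      rw [mem_biUnion]
      exact ⟨x, mem_univ _, mem_filter.2 ⟨mem_univ _, hx⟩⟩
    have h2 := card_le_card h1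
    have h3 := h2.trans card_biUnion_le
    have h4 : (univ : Finset (Fin L → Bool)).card = 2 ^ (8 * t) := by
      rw [card_univ]
      simp [hL]
    rw [h4] at h3
    have h5 : ((2 ^ (8 * t) : ℕ) : ℝ) ≤ ∑ x : X, ((univ.filter fun σ : Fin L → Bool =>
        (univ.filter fun i => σ i ≠ τ x i).card ≤ t).card : ℝ) := by
      exact_mod_cast h3
    push_cast at h5
    refine h5.trans ?_
    calc ∑ x : X, ((univ.filter fun σ : Fin L → Bool =>
          (univ.filter fun i => σ i ≠ τ x i).card ≤ t).card : ℝ)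
        ≤ ∑ _x : X, ((2 : ℝ) ^ (8 * t) / 12 ^ t) := by
          apply sum_le_sum
          intro x _
          rw [le_div_iff₀ (by positivity)]
          exact ball_card (t := t) (τ x)
      _ = X.card * (2 ^ (8 * t) / 12 ^ t) := by
          rw [sum_const, nsmul_eq_mul, card_univ, Fintype.card_coe]
  have hX12 : (12 : ℝ) ^ t ≤ X.card := by
    have h1 : (0 : ℝ) < 2 ^ (8 * t) := by positivity
    have h2 : (0 : ℝ) < 12 ^ t := by positivity
    rw [mul_div_assoc', le_div_iff₀ h2] at hcount
    have h3 : (12 : ℝ) ^ t * 2 ^ (8 * t) ≤ X.card * 2 ^ (8 * t) := by linarith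
    exact le_of_mul_le_mul_right h3 h1
  refine le_trans ?_ hX12
  have hdR : (0 : ℝ) < d := by exact_mod_cast hdpos
  have h1 : Real.log d ≤ 112 * t * Real.log A := by
    have := Real.log_le_log hdR hdup
    rw [Real.log_pow] at this
    push_cast at this
    exact this
  rw [Real.rpow_def_of_pos hdR, ← Real.exp_log (show (0 : ℝ) < 12 ^ t by positivity), Real.log_pow,
    Real.exp_le_exp]
  rw [mul_div_assoc', div_le_iff₀ (by positivity)]
  calc Real.log d * Real.log 12 ≤ 112 * t * Real.log A * Real.log 12 :=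
        mul_le_mul_of_nonneg_right h1 hlog12.le
    _ = t * Real.log 12 * (112 * Real.log A) := by ring

end Pool.Agent.Results.MP_61ce55_lc.PolynomialPortfolios
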